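import Pool.Agent.W_MP_f70009_h24.FinalB

/-!
# MP_f70009_an, Q1: negative answer (`M = 𝕋`, `V = 𝕋 × M = 𝕋²`)

For every neighbourhood `N₀` of the identity in `Diff^∞(𝕋²)` there is a neighbourhood `N` of the
identity such that no smooth map `I : N₀ → N` makes every `G ∈ N₀` a total renormalization of
`I G`.  Neither injectivity nor tame estimates are assumed of `I`, and smooth is understood in
the weaker of two senses: `C^∞` between Fréchet manifolds (Hamilton), or mapping smooth curves to
smooth curves.

Idea of the proof.  `g₀ = I(id)` has finite order `n₁` since return times are bounded.  For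
`G_t = id + t U_L`, with `U_L` a trigonometric field of frequency `L`, of size `L^{-R}` (so small in
`C^R`), all periodic points are fixed points, among them `L²` attracting foci with multiplier
`1 - th(1 - i)`, `h ~ L^{1-R}`.  At every periodic point of `g_t = I(G_t)` with non-real multiplier
the multiplier is exactly that of a focus of `G_t`, also when the point is at the boundary of `Δ`
(recurrence of directions).  Hence the corresponding `L²` periodic points of `g_t` persist for
`t ∈ (0, 1]` with constant period, and letting `t → 0` shows that this period divides `n₁`, which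
does not depend on `L`.  Then `g_1^{n₁}`, bounded in `C^r` with `r` much larger than `R`, has `L²`
fixed points with `|det(D - 1)| ≥ c L^{2-2R}`: impossible for large `L` (Taylor polynomials and
a weak form of Bezout).
-/

open scoped Topology

namespace Pool.Agent.Results.MP_f70009_an.NoSmoothSection

theorem result : ∀ N₀ ∈ 𝓝 TotRen.Diffeo.one, ∃ N ∈ 𝓝 TotRen.Diffeo.one,
    ¬ ∃ I : TotRen.Diffeo → TotRen.Diffeo, TotRen.IsSmoothOn N₀ I ∧
      ∀ G ∈ N₀, I G ∈ N ∧ TotRen.IsTotalRenormalization (I G).toFun G.toFun :=
  TotRen.negative_answer

end Pool.Agent.Results.MP_f70009_an.NoSmoothSection
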